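import Mathlib

/-!
# A benzenoid hexagon with ring bond order 3 (MP_64a46a_co, Q1)

The hexagonal lattice: its faces (hexagons) are indexed by `(x, y) : ℤ × ℤ`, the points
`x a + y b` of a triangular lattice (`a`, `b` unit vectors at 60 degrees). Its vertices are the
centres of the triangles of the triangular lattice: `(x, y, true)` is the triangle with corners
`(x,y), (x+1,y), (x,y+1)`, and `(x, y, false)` the triangle with corners
`(x+1,y), (x,y+1), (x+1,y+1)`. Two vertices are adjacent iff the triangles share a side.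
-/

open SimpleGraph Finset

namespace Pool.Agent.Results.MP_64a46a_co.RingBondOrderThree

/-- Vertices of the regular hexagonal lattice. -/
abbrev V := ℤ × ℤ × Bool

/-- `u` is an up-triangle, `v` a down-triangle, and they share a side. -/
def UpDown (u v : V) : Prop :=
  u.2.2 = true ∧ v.2.2 = false ∧
    ((v.1 = u.1 ∧ v.2.1 = u.2.1) ∨ (v.1 = u.1 - 1 ∧ v.2.1 = u.2.1) ∨
      (v.1 = u.1 ∧ v.2.1 = u.2.1 - 1))

instance : DecidableRel UpDown := fun u v => by unfold UpDown; infer_instance

/-- The (infinite) regular hexagonal lattice. -/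
def hexLattice : SimpleGraph V where
  Adj u v := UpDown u v ∨ UpDown v u
  symm := ⟨fun _ _ h => Or.symm h⟩
  loopless := ⟨fun u h => by
    rcases h with h | h <;> exact absurd (h.1.symm.trans h.2.1) (by decide)⟩

instance : DecidableRel hexLattice.Adj := fun u v =>
  inferInstanceAs (Decidable (UpDown u v ∨ UpDown v u))

/-- The six vertices of the hexagon `c`. -/
def hexVerts (c : ℤ × ℤ) : Finset V :=
  {(c.1, c.2, true), (c.1 - 1, c.2, false), (c.1 - 1, c.2, true), (c.1 - 1, c.2 - 1, false),
    (c.1, c.2 - 1, true), (c.1, c.2 - 1, false)}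

/-- The six edges of the hexagon `c`. -/
def hexEdges (c : ℤ × ℤ) : Finset (Sym2 V) :=
  {s((c.1, c.2, true), (c.1 - 1, c.2, false)), s((c.1 - 1, c.2, false), (c.1 - 1, c.2, true)),
    s((c.1 - 1, c.2, true), (c.1 - 1, c.2 - 1, false)),
    s((c.1 - 1, c.2 - 1, false), (c.1, c.2 - 1, true)),
    s((c.1, c.2 - 1, true), (c.1, c.2 - 1, false)), s((c.1, c.2 - 1, false), (c.1, c.2, true))}

/-- The vertices of the system with hexagons `F`. -/
def verts (F : Finset (ℤ × ℤ)) : Finset V := F.biUnion hexVerts

/-- The edges of the system with hexagons `F`. -/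
def edges (F : Finset (ℤ × ℤ)) : Finset (Sym2 V) := F.biUnion hexEdges

/-- `F` is the set of hexagons of a benzenoid system: there is a cycle `C` of the hexagonal lattice
whose edges are exactly the edges lying on exactly one hexagon of `F`. Thus `F` is the set of
hexagons inside `C`, and `verts F`, `edges F` are the vertices and edges on or inside `C`. -/
def IsBenzenoid (F : Finset (ℤ × ℤ)) : Prop :=
  ∃ (v : V) (C : hexLattice.Walk v v), C.IsCycle ∧
    ∀ e : Sym2 V, e ∈ C.edges ↔ (F.filter (fun c => e ∈ hexEdges c)).card = 1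

/-- A Kekulé structure: a set of edges of `B` such that every vertex of `B` is on exactly one. -/
def IsKekule (F : Finset (ℤ × ℤ)) (M : Finset (Sym2 V)) : Prop :=
  M ⊆ edges F ∧ ∀ v ∈ verts F, (M.filter (fun e => v ∈ e)).card = 1

instance (F : Finset (ℤ × ℤ)) : DecidablePred (IsKekule F) := fun M => by
  unfold IsKekule; infer_instance

/-- The finite set of all Kekulé structures. -/
def kekule (F : Finset (ℤ × ℤ)) : Finset (Finset (Sym2 V)) :=
  (edges F).powerset.filter (fun M => IsKekule F M)

/-- The number of Kekulé structures. -/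
def K (F : Finset (ℤ × ℤ)) : ℕ := (kekule F).card

/-- The Pauling bond order of an edge. -/
def bondOrder (F : Finset (ℤ × ℤ)) (e : Sym2 V) : ℚ :=
  ((kekule F).filter (fun M => e ∈ M)).card / K F

/-- The ring bond order of a hexagon. -/
def RBO (F : Finset (ℤ × ℤ)) (c : ℤ × ℤ) : ℚ := ∑ e ∈ hexEdges c, bondOrder F e

/-- The example: nine hexagons. -/
def F0 : Finset (ℤ × ℤ) :=
  {(0, 0), (-1, 1), (-2, 1), (-3, 1), (-3, 2), (-1, 2), (-1, 3), (-1, 4), (-2, 4)}

/-- Its boundary cycle. -/
def C0 : hexLattice.Walk ((0, 0, true) : V) (0, 0, true) :=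
  (Walk.cons (show hexLattice.Adj (0, 0, true) (0, -1, false) by decide)
  (Walk.cons (show hexLattice.Adj (0, -1, false) (0, -1, true) by decide)
  (Walk.cons (show hexLattice.Adj (0, -1, true) (-1, -1, false) by decide)
  (Walk.cons (show hexLattice.Adj (-1, -1, false) (-1, 0, true) by decide)
  (Walk.cons (show hexLattice.Adj (-1, 0, true) (-2, 0, false) by decide)
  (Walk.cons (show hexLattice.Adj (-2, 0, false) (-2, 0, true) by decide)
  (Walk.cons (show hexLattice.Adj (-2, 0, true) (-3, 0, false) by decide)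
  (Walk.cons (show hexLattice.Adj (-3, 0, false) (-3, 0, true) by decide)
  (Walk.cons (show hexLattice.Adj (-3, 0, true) (-4, 0, false) by decide)
  (Walk.cons (show hexLattice.Adj (-4, 0, false) (-4, 1, true) by decide)
  (Walk.cons (show hexLattice.Adj (-4, 1, true) (-4, 1, false) by decide)
  (Walk.cons (show hexLattice.Adj (-4, 1, false) (-4, 2, true) by decide)
  (Walk.cons (show hexLattice.Adj (-4, 2, true) (-4, 2, false) by decide)
  (Walk.cons (show hexLattice.Adj (-4, 2, false) (-3, 2, true) by decide)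
  (Walk.cons (show hexLattice.Adj (-3, 2, true) (-3, 1, false) by decide)
  (Walk.cons (show hexLattice.Adj (-3, 1, false) (-2, 1, true) by decide)
  (Walk.cons (show hexLattice.Adj (-2, 1, true) (-2, 1, false) by decide)
  (Walk.cons (show hexLattice.Adj (-2, 1, false) (-2, 2, true) by decide)
  (Walk.cons (show hexLattice.Adj (-2, 2, true) (-2, 2, false) by decide)
  (Walk.cons (show hexLattice.Adj (-2, 2, false) (-2, 3, true) by decide)
  (Walk.cons (show hexLattice.Adj (-2, 3, true) (-3, 3, false) by decide)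
  (Walk.cons (show hexLattice.Adj (-3, 3, false) (-3, 4, true) by decide)
  (Walk.cons (show hexLattice.Adj (-3, 4, true) (-3, 4, false) by decide)
  (Walk.cons (show hexLattice.Adj (-3, 4, false) (-2, 4, true) by decide)
  (Walk.cons (show hexLattice.Adj (-2, 4, true) (-2, 4, false) by decide)
  (Walk.cons (show hexLattice.Adj (-2, 4, false) (-1, 4, true) by decide)
  (Walk.cons (show hexLattice.Adj (-1, 4, true) (-1, 3, false) by decide)
  (Walk.cons (show hexLattice.Adj (-1, 3, false) (-1, 3, true) by decide)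
  (Walk.cons (show hexLattice.Adj (-1, 3, true) (-1, 2, false) by decide)
  (Walk.cons (show hexLattice.Adj (-1, 2, false) (-1, 2, true) by decide)
  (Walk.cons (show hexLattice.Adj (-1, 2, true) (-1, 1, false) by decide)
  (Walk.cons (show hexLattice.Adj (-1, 1, false) (-1, 1, true) by decide)
  (Walk.cons (show hexLattice.Adj (-1, 1, true) (-1, 0, false) by decide)
  (Walk.cons (show hexLattice.Adj (-1, 0, false) (0, 0, true) by decide)
  Walk.nil))))))))))))))))))))))))))))))))))

/-- One Kekulé structure. -/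
def M0 : Finset (Sym2 V) :=
  {s((-4, 1, true), (-4, 1, false)),
    s((-4, 2, true), (-4, 2, false)),
    s((-3, 0, true), (-4, 0, false)),
    s((-3, 1, true), (-3, 0, false)),
    s((-3, 2, true), (-3, 1, false)),
    s((-3, 4, true), (-3, 4, false)),
    s((-2, 0, true), (-2, 0, false)),
    s((-2, 1, true), (-2, 1, false)),
    s((-2, 2, true), (-2, 2, false)),
    s((-2, 3, true), (-3, 3, false)),
    s((-2, 4, true), (-2, 3, false)),
    s((-1, 0, true), (-1, -1, false)),
    s((-1, 1, true), (-1, 1, false)),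
    s((-1, 2, true), (-1, 2, false)),
    s((-1, 3, true), (-1, 3, false)),
    s((-1, 4, true), (-2, 4, false)),
    s((0, -1, true), (0, -1, false)),
    s((0, 0, true), (-1, 0, false))}

def WS : Finset V := {(-3, 4, true), (-2, 3, true), (-2, 4, true), (-1, 0, true), (-1, 1, true), (-1, 2, true), (-1, 3, true), (-1, 4, true), (0, -1, true), (0, 0, true)}
def BS : Finset V := {(-3, 3, false), (-3, 4, false), (-2, 3, false), (-2, 4, false), (-1, -1, false), (-1, 0, false), (-1, 1, false), (-1, 2, false), (-1, 3, false), (0, -1, false)}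
def W2 : Finset V := {(-3, 4, true), (-2, 3, true), (-2, 4, true), (-1, 1, true), (-1, 2, true), (-1, 3, true), (-1, 4, true)}
def B2 : Finset V := {(-3, 3, false), (-3, 4, false), (-2, 3, false), (-2, 4, false), (-1, 1, false), (-1, 2, false), (-1, 3, false)}

theorem C0_cycle : C0.IsCycle := by
  rw [SimpleGraph.Walk.isCycle_def]
  refine ⟨?_, ?_, ?_⟩
  · rw [SimpleGraph.Walk.isTrail_def]
    decide +kernel
  · intro h
    have := congrArg SimpleGraph.Walk.length h
    revert this
    decide +kernel
  · decide +kernel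

theorem C0_mem : ∀ e ∈ C0.edges, (F0.filter (fun c => e ∈ hexEdges c)).card = 1 := by
  decide +kernel

theorem C0_mem' : ∀ e ∈ edges F0, (F0.filter (fun c => e ∈ hexEdges c)).card = 1 →
    e ∈ C0.edges := by
  decide +kernel

theorem F0_benzenoid : IsBenzenoid F0 := by
  refine ⟨_, C0, C0_cycle, fun e => ⟨C0_mem e, fun h => C0_mem' e ?_ h⟩⟩
  have h1 : (F0.filter (fun c => e ∈ hexEdges c)).Nonempty := by
    rw [← Finset.card_pos, h]
    exact Nat.one_pos
  obtain ⟨c, hc⟩ := h1
  rw [Finset.mem_filter] at hc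
  exact Finset.mem_biUnion.2 ⟨c, hc.1, hc.2⟩

theorem M0_kekule : IsKekule F0 M0 := by
  decide +kernel

/-- Double counting. -/
theorem count {F : Finset (ℤ × ℤ)} {M : Finset (Sym2 V)} (hM : IsKekule F M) (S : Finset V)
    (hS : S ⊆ verts F) : ∑ e ∈ M, (S.filter (fun v => v ∈ e)).card = S.card := by
  have h := Finset.sum_card_bipartiteAbove_eq_sum_card_bipartiteBelow
    (s := M) (t := S) (fun (e : Sym2 V) (v : V) => v ∈ e)
  simp only [Finset.bipartiteAbove, Finset.bipartiteBelow] at h
  rw [h, Finset.sum_congr rfl (fun v hv => hM.2 v (hS hv))]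
  simp

theorem cross {M : Finset (Sym2 V)} (hM : IsKekule F0 M) (W B : Finset V) (hW : W ⊆ verts F0)
    (hB : B ⊆ verts F0) (hc : W.card = B.card)
    (hle : ∀ e ∈ edges F0, (B.filter (fun v => v ∈ e)).card ≤ (W.filter (fun v => v ∈ e)).card)
    (e : Sym2 V) (he : (B.filter (fun v => v ∈ e)).card < (W.filter (fun v => v ∈ e)).card) :
    e ∉ M := by
  intro heM
  have h1 := count hM W hW
  have h2 := count hM B hB
  have h3 := Finset.sum_lt_sum (s := M) (fun e he => hle e (hM.1 he)) ⟨e, heM, he⟩
  omega

theorem o1 {M : Finset (Sym2 V)} (hM : IsKekule F0 M) :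
    s(((-1, 0, true) : V), (-2, 0, false)) ∉ M :=
  cross hM WS BS (by decide +kernel) (by decide +kernel) (by decide +kernel) (by decide +kernel)
    _ (by decide +kernel)

theorem o2 {M : Finset (Sym2 V)} (hM : IsKekule F0 M) :
    s(((-1, 1, true) : V), (-1, 0, false)) ∉ M :=
  cross hM W2 B2 (by decide +kernel) (by decide +kernel) (by decide +kernel) (by decide +kernel)
    _ (by decide +kernel)

theorem incid : ∀ e ∈ edges F0, e ≠ s(((-1, 0, true) : V), (-2, 0, false)) →
    e ≠ s(((-1, 1, true) : V), (-1, 0, false)) →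
    ((hexVerts (0, 0)).filter (fun v => v ∈ e)).card = if e ∈ hexEdges (0, 0) then 2 else 0 := by
  decide +kernel

theorem three {M : Finset (Sym2 V)} (hM : IsKekule F0 M) :
    ((hexEdges (0, 0)).filter (fun e => e ∈ M)).card = 3 := by
  have h1 := count hM (hexVerts (0, 0)) (by decide +kernel)
  have h2 : ∀ e ∈ M, ((hexVerts (0, 0)).filter (fun v => v ∈ e)).card =
      if e ∈ hexEdges (0, 0) then 2 else 0 := by
    intro e he
    refine incid e (hM.1 he) ?_ ?_
    · rintro rfl
      exact o1 hM he
    · rintro rfl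
      exact o2 hM he
  rw [Finset.sum_congr rfl h2, ← Finset.sum_filter, Finset.sum_const, smul_eq_mul] at h1
  have h3 : (hexVerts (0, 0)).card = 6 := by decide +kernel
  have h4 : M.filter (fun e => e ∈ hexEdges (0, 0)) =
      (hexEdges (0, 0)).filter (fun e => e ∈ M) := by
    ext e
    simp only [Finset.mem_filter]
    exact and_comm
  rw [h4, h3] at h1
  omega

theorem K_pos : 0 < K F0 := by
  refine Finset.card_pos.2 ⟨M0, ?_⟩
  rw [kekule, Finset.mem_filter, Finset.mem_powerset]
  exact ⟨M0_kekule.1, M0_kekule⟩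

theorem rbo_of {F : Finset (ℤ × ℤ)} {c : ℤ × ℤ} (hpos : 0 < K F)
    (h3 : ∀ M ∈ kekule F, ((hexEdges c).filter (fun e => e ∈ M)).card = 3) : RBO F c = 3 := by
  have h := Finset.sum_card_bipartiteAbove_eq_sum_card_bipartiteBelow
    (s := hexEdges c) (t := kekule F) (fun (e : Sym2 V) (M : Finset (Sym2 V)) => e ∈ M)
  simp only [Finset.bipartiteAbove, Finset.bipartiteBelow] at h
  rw [Finset.sum_congr rfl h3, Finset.sum_const, smul_eq_mul] at h
  have hK : (K F : ℚ) ≠ 0 := Nat.cast_ne_zero.2 hpos.ne'
  unfold RBO bondOrder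
  rw [← Finset.sum_div, div_eq_iff hK, ← Nat.cast_sum, h, Nat.cast_mul, mul_comm]
  rfl

theorem rbo : RBO F0 (0, 0) = 3 := by
  refine rbo_of K_pos ?_
  intro M hM
  rw [kekule, Finset.mem_filter] at hM
  exact three hM.2

/-- There is a benzenoid system with at least two hexagons and at least one Kekulé structure which
has a hexagon of ring bond order `3`; every Kekulé structure has three edges on that hexagon. -/
theorem result : ∃ F : Finset (ℤ × ℤ), IsBenzenoid F ∧ 2 ≤ F.card ∧ 1 ≤ K F ∧
    ∃ c ∈ F, RBO F c = 3 ∧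
      ∀ M, IsKekule F M → ((hexEdges c).filter (fun e => e ∈ M)).card = 3 :=
  ⟨F0, F0_benzenoid, by decide +kernel, K_pos, (0, 0), by decide +kernel, rbo,
    fun _ hM => three hM⟩

end Pool.Agent.Results.MP_64a46a_co.RingBondOrderThree
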